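import Pool.Agent.H80.AN.TargetsA

/-! Row BTF of `allh_modules`: facts on the beta numbers. -/

set_option autoImplicit false

namespace Pool.Agent.H67.AN.BTF

open MeasureTheory Metric Set Filter Topology
open Pool.Agent.H87.SN Pool.Agent.H87.SH Pool.Agent.H87.AX Pool.Agent.H22.AN
open scoped ContDiff RealInnerProductSpace ENNReal

theorem norm_bv {n : ℕ} (i : Fin n) : ‖(bv i : E n)‖ = 1 := by simp [bv]

theorem inner_bv {n : ℕ} (v : E n) (j : Fin n) : ⟪v, (bv j : E n)⟫ = v j := by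
  simp [bv, EuclideanSpace.inner_single_right]

theorem nsq_le {n m : ℕ} (L : E n →L[ℝ] E m) : nsq L ≤ n * ‖L‖ ^ 2 := by
  unfold nsq
  calc ∑ i, ‖L (bv i)‖ ^ 2 ≤ ∑ _i : Fin n, ‖L‖ ^ 2 := by
        refine Finset.sum_le_sum fun i _ => ?_
        have h := L.le_opNorm (bv i)
        rw [norm_bv, mul_one] at h
        gcongr
    _ = n * ‖L‖ ^ 2 := by simp

theorem mu_ne_top {d m : ℕ} {G : V d → V d →L[ℝ] E m}
    (hG : MemLp G 2 (volume.restrict (ball (0 : V d) 2))) (s : Set (V d)) : mu G s ≠ ⊤ := by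
  have h1 : Integrable (fun x => ‖G x‖ ^ 2) (volume.restrict (ball (0 : V d) 2)) :=
    hG.integrable_norm_pow (by norm_num)
  have h2 := (h1.const_mul ((d + 2 : ℕ) : ℝ)).lintegral_lt_top
  refine ne_top_of_le_ne_top h2.ne ?_
  calc mu G s ≤ mu G univ := measure_mono (subset_univ s)
    _ = ∫⁻ x, ENNReal.ofReal (nsq (G x)) ∂(volume.restrict (ball (0 : V d) 2)) := by
        rw [mu, withDensity_apply _ MeasurableSet.univ, Measure.restrict_univ]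
    _ ≤ ∫⁻ x, ENNReal.ofReal (((d + 2 : ℕ) : ℝ) * ‖G x‖ ^ 2)
          ∂(volume.restrict (ball (0 : V d) 2)) :=
        lintegral_mono fun x => ENNReal.ofReal_le_ofReal (nsq_le _)

theorem on_bv (d : ℕ) : ON (bv (0 : Fin (d + 2))) (bv (1 : Fin (d + 2))) := by
  refine ⟨norm_bv _, norm_bv _, ?_⟩
  rw [inner_bv]
  simp [bv]

theorem dl_bounds {d : ℕ} (a ν₁ ν₂ y : V d) (h : ON ν₁ ν₂) :
    0 ≤ dl a ν₁ ν₂ y ∧ dl a ν₁ ν₂ y ≤ ‖y - a‖ ^ 2 := by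
  obtain ⟨h1, h2, h3⟩ := h
  unfold dl
  set v := y - a with hv
  refine ⟨by positivity, ?_⟩
  have h4 : 0 ≤ ‖v - ⟪v, ν₁⟫ • ν₁ - ⟪v, ν₂⟫ • ν₂‖ ^ 2 := by positivity
  have h5 : ‖v - ⟪v, ν₁⟫ • ν₁ - ⟪v, ν₂⟫ • ν₂‖ ^ 2 = ‖v‖ ^ 2 - ⟪v, ν₁⟫ ^ 2 - ⟪v, ν₂⟫ ^ 2 := by
    have e1 : ⟪ν₁, v⟫ = ⟪v, ν₁⟫ := real_inner_comm _ _
    have e2 : ⟪ν₂, v⟫ = ⟪v, ν₂⟫ := real_inner_comm _ _
    have e3 : ⟪ν₂, ν₁⟫ = 0 := by rw [real_inner_comm]; exact h3
    have n1 : ⟪ν₁, ν₁⟫ = 1 := by rw [real_inner_self_eq_norm_sq, h1]; norm_num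
    have n2 : ⟪ν₂, ν₂⟫ = 1 := by rw [real_inner_self_eq_norm_sq, h2]; norm_num
    rw [← real_inner_self_eq_norm_sq, ← real_inner_self_eq_norm_sq]
    simp only [inner_sub_left, inner_sub_right, inner_smul_left, inner_smul_right,
      RCLike.conj_to_real, e1, e2, e3, n1, n2, h3]
    ring
  linarith

theorem dl_bv {d : ℕ} (y : V d) :
    dl 0 (bv (0 : Fin (d + 2))) (bv (1 : Fin (d + 2))) y = rho y ^ 2 := by
  unfold dl rho
  rw [sub_zero, inner_bv, inner_bv, Real.sq_sqrt (by positivity)]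

theorem bt_le {d m : ℕ} (G : V d → V d →L[ℝ] E m) (Λ : ℝ) (hG : GD Λ G) (x : V d) (t : ℝ)
    (ht : 0 < t) (hb : ball x (8 * t) ⊆ ball 0 2) :
    bt G x t ≤ ENNReal.ofReal (8 ^ (d + 2) * Λ) := by
  have hT := on_bv d
  have hd := hG.den x (8 * t) (by linarith) hb
  have hμ : mu G (ball x (8 * t)) ≤ ENNReal.ofReal (Λ * (8 * t) ^ d) := by
    rw [← ENNReal.ofReal_toReal (mu_ne_top hG.memG (ball x (8 * t)))]
    exact ENNReal.ofReal_le_ofReal hd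
  have h0 : 0 ≤ Λ * (8 * t) ^ d := le_trans measureReal_nonneg hd
  calc bt G x t ≤ ENNReal.ofReal ((t ^ (d + 2))⁻¹) *
        ∫⁻ y in ball x (8 * t), ENNReal.ofReal (dl x (bv 0) (bv 1) y) ∂(mu G) := by
        unfold bt
        exact iInf_le_of_le x (iInf_le_of_le (bv 0) (iInf_le_of_le (bv 1)
          (iInf_le_of_le hT le_rfl)))
    _ ≤ ENNReal.ofReal ((t ^ (d + 2))⁻¹) *
        ∫⁻ _ in ball x (8 * t), ENNReal.ofReal ((8 * t) ^ 2) ∂(mu G) := by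
        refine mul_le_mul_right ?_ _
        refine setLIntegral_mono' measurableSet_ball fun y hy => ENNReal.ofReal_le_ofReal ?_
        refine (dl_bounds x (bv 0) (bv 1) y hT).2.trans ?_
        have : ‖y - x‖ < 8 * t := by simpa [dist_eq_norm] using hy
        gcongr
    _ = ENNReal.ofReal ((t ^ (d + 2))⁻¹) *
          (ENNReal.ofReal ((8 * t) ^ 2) * mu G (ball x (8 * t))) := by
        rw [setLIntegral_const]
    _ ≤ ENNReal.ofReal ((t ^ (d + 2))⁻¹) * (ENNReal.ofReal ((8 * t) ^ 2) *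
          ENNReal.ofReal (Λ * (8 * t) ^ d)) := by gcongr
    _ = ENNReal.ofReal (8 ^ (d + 2) * Λ) := by
        rw [← ENNReal.ofReal_mul (by positivity), ← ENNReal.ofReal_mul (by positivity)]
        congr 1
        rw [mul_pow, mul_pow, pow_add, pow_add]
        field_simp

theorem bt_comp {d m : ℕ} (G : V d → V d →L[ℝ] E m) (x x' : V d) (t : ℝ) (ht : 0 < t)
    (hd : dist x x' ≤ 8 * t) : bt G x t ≤ 2 ^ (d + 2) * bt G x' (2 * t) := by
  have hz : (2 : ℝ≥0∞) ^ (d + 2) ≠ 0 := pow_ne_zero _ (by norm_num)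
  have ht' : (2 : ℝ≥0∞) ^ (d + 2) ≠ ⊤ := ENNReal.pow_ne_top (by norm_num)
  unfold bt
  rw [ENNReal.mul_iInf_of_ne hz ht']
  refine le_iInf fun a => ?_
  rw [ENNReal.mul_iInf_of_ne hz ht']
  refine le_iInf fun ν₁ => ?_
  rw [ENNReal.mul_iInf_of_ne hz ht']
  refine le_iInf fun ν₂ => ?_
  rw [ENNReal.mul_iInf_of_ne hz ht']
  refine le_iInf fun hT => ?_
  refine iInf_le_of_le a (iInf_le_of_le ν₁ (iInf_le_of_le ν₂ (iInf_le_of_le hT ?_)))
  rw [← mul_assoc]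
  have h1 : (2 : ℝ≥0∞) ^ (d + 2) * ENNReal.ofReal (((2 * t) ^ (d + 2))⁻¹) =
      ENNReal.ofReal ((t ^ (d + 2))⁻¹) := by
    rw [show (2 : ℝ≥0∞) ^ (d + 2) = ENNReal.ofReal (2 ^ (d + 2)) by
      rw [ENNReal.ofReal_pow (by norm_num)]; norm_num, ← ENNReal.ofReal_mul (by positivity)]
    congr 1
    rw [mul_pow]
    field_simp
  rw [h1]
  gcongr
  intro y hy
  rw [mem_ball] at hy ⊢
  linarith [dist_triangle y x x']

end Pool.Agent.H67.AN.BTF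

namespace Pool.Agent.H67.AN

theorem pf_BTF : Pool.Agent.H22.AN.T_BTF := fun _ =>
  ⟨BTF.dl_bounds, BTF.on_bv _, BTF.dl_bv, fun _ G Λ hG x t ht hb => BTF.bt_le G Λ hG x t ht hb,
    fun _ G x x' t ht hd => BTF.bt_comp G x x' t ht hd⟩

end Pool.Agent.H67.AN
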