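import Pool.Agent.H22.AN.TB3
import Pool.Agent.H80.AN.TargetsA

/-! Row MA2 of `allh_modules`: moments of windows. -/

set_option autoImplicit false

namespace Pool.Agent.H67.AN.MA2

open MeasureTheory Metric Set Filter Topology
open Pool.Agent.H87.SN Pool.Agent.H87.SH Pool.Agent.H87.AX Pool.Agent.H22.AN
open scoped ContDiff RealInnerProductSpace ENNReal

variable {d : ℕ}

theorem continuous_zp : Continuous (fun x : V d => zp x) := by
  unfold zp
  fun_prop

theorem continuous_rho : Continuous (fun x : V d => rho x) := by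
  unfold rho
  fun_prop

theorem continuous_chh (h : ℝ) : Continuous (chh (d := d) h) := by
  unfold chh
  exact Real.smoothTransition.continuous.comp (by fun_prop)

theorem continuous_bw (z₀ : E d) (t : ℝ) : Continuous (bw z₀ t) := by
  unfold bw phi
  fun_prop

theorem bw_bound (z₀ : E d) (t : ℝ) (z : E d) : |bw z₀ t z| ≤ |(cw d * t ^ d)⁻¹| := by
  unfold bw
  rw [abs_mul]
  have h1 : |phi (t⁻¹ • (z - z₀))| ≤ 1 := by
    unfold phi
    have h2 : 0 ≤ max 0 (1 - ‖t⁻¹ • (z - z₀)‖ ^ 2) := le_max_left _ _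
    have h3 : max 0 (1 - ‖t⁻¹ • (z - z₀)‖ ^ 2) ≤ 1 := max_le (by norm_num) (by
      have : 0 ≤ ‖t⁻¹ • (z - z₀)‖ ^ 2 := by positivity
      linarith)
    rw [abs_of_nonneg (by positivity)]
    exact pow_le_one₀ h2 h3
  calc |(cw d * t ^ d)⁻¹| * |phi (t⁻¹ • (z - z₀))| ≤ |(cw d * t ^ d)⁻¹| * 1 := by gcongr
    _ = _ := mul_one _

theorem abs_coord_le (x : V d) (j : Fin (d + 2)) : |x j| ≤ ‖x‖ := by
  have h := EuclideanSpace.norm_sq_eq x
  apply abs_le_of_sq_le_sq _ (norm_nonneg x)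
  rw [h]
  have h1 : x j ^ 2 = ‖x j‖ ^ 2 := by rw [Real.norm_eq_abs, sq_abs]
  rw [h1]
  exact Finset.single_le_sum (f := fun i => ‖x i‖ ^ 2) (fun i _ => by positivity)
    (Finset.mem_univ j)

theorem norm_bv {n : ℕ} (i : Fin n) : ‖(bv i : E n)‖ = 1 := by simp [bv]

theorem lap_bound {φ : E d → ℝ} {z : E d} {B : ℝ} (hB : ‖fderiv ℝ (fderiv ℝ φ) z‖ ≤ B) :
    |lap φ z| ≤ d * B := by
  unfold lap
  calc |∑ i : Fin d, fderiv ℝ (fderiv ℝ φ) z (bv i) (bv i)|
      ≤ ∑ i : Fin d, |fderiv ℝ (fderiv ℝ φ) z (bv i) (bv i)| := Finset.abs_sum_le_sum_abs _ _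
    _ ≤ ∑ _i : Fin d, B := by
        refine Finset.sum_le_sum fun i _ => ?_
        have h1 := (fderiv ℝ (fderiv ℝ φ) z).le_opNorm₂ (bv i) (bv i)
        rw [norm_bv, mul_one, mul_one, Real.norm_eq_abs] at h1
        exact h1.trans hB
    _ = d * B := by simp

theorem continuous_lap {φ : E d → ℝ} (hφ : ContDiff ℝ 3 φ) : Continuous (lap φ) := by
  unfold lap
  refine continuous_finsetSum _ fun i _ => ?_
  have h1 : ContDiff ℝ 2 (fderiv ℝ φ) := hφ.fderiv_right (by norm_num)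
  have h2 : Continuous (fderiv ℝ (fderiv ℝ φ)) := h1.continuous_fderiv (by norm_num)
  exact (h2.clm_apply continuous_const).clm_apply continuous_const

theorem bdd_int {μ : Measure (V d)} {q k : V d → ℝ} {B : ℝ} (hk : Integrable k μ)
    (hq : Continuous q) (hB : ∀ᵐ x ∂μ, |q x| ≤ B) : Integrable (fun x => q x * k x) μ :=
  hk.bdd_mul hq.aestronglyMeasurable (by simpa only [Real.norm_eq_abs] using hB)

/-- the derivative of the moments -/
theorem deriv_mo (hCHF : T_CHF) {m : ℕ} {G : V d → V d →L[ℝ] E m}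
    (hI : IntegrableOn (fun x => nsq (G x)) (ball (0 : V d) 2)) {C₁ : ℝ} (hC₁ : 0 < C₁)
    (z₀ : E d) (φ : ℝ → E d → ℝ) (hφ : ∀ s, 0 < s → ContDiff ℝ 3 (φ s) ∧
      (∀ z, ‖fderiv ℝ (fderiv ℝ (φ s)) z‖ ≤ C₁ / s ^ (d + 2)) ∧
      ∀ z : E d, HasDerivAt (fun r : ℝ => bw z₀ r z) (- (s * lap (φ s) z)) s)
    (h : ℝ) (hh : 0 < h) (j : Fin (d + 2)) (s : ℝ) (hs : 0 < s) :
    HasDerivAt (fun r : ℝ => mo G h j z₀ r)
      (- (s * ∫ x in ball (0 : V d) 2, chh h x * lap (φ s) (zp x) * x j * nsq (G x))) s := by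
  obtain ⟨Cc, -, hchh⟩ := hCHF
  obtain ⟨-, hc1, -⟩ := hchh d h hh
  have hnn : ∀ y : V d, 0 ≤ nsq (G y) := fun y => Finset.sum_nonneg fun i _ => by positivity
  have hxj : ∀ x ∈ ball (0 : V d) 2, |x j| ≤ 2 := fun x hx =>
    (abs_coord_le x j).trans (mem_ball_zero_iff.1 hx).le
  have hcj : Continuous (fun x : V d => x j) := by fun_prop
  have hae : ∀ᵐ x ∂(volume.restrict (ball (0 : V d) 2)), x ∈ ball (0 : V d) 2 :=
    ae_restrict_mem measurableSet_ball
  have hInt : ∀ (q : V d → ℝ) (B : ℝ), Continuous q → (∀ x, |q x| ≤ B) →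
      Integrable (fun x => chh h x * q x * x j * nsq (G x)) (volume.restrict (ball (0 : V d) 2)) := by
    intro q B hq hB
    have hB0 : 0 ≤ B := (abs_nonneg _).trans (hB 0)
    refine bdd_int (B := B * 2) hI (((continuous_chh h).mul hq).mul hcj) ?_
    filter_upwards [hae] with x hx
    rw [abs_mul, abs_mul, abs_of_nonneg (hc1 x).1]
    calc chh h x * |q x| * |x j| ≤ 1 * B * 2 := by
          gcongr
          · exact (hc1 x).2
          · exact hB x
          · exact hxj x hx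
      _ = B * 2 := by ring
  have hkey := hasDerivAt_integral_of_dominated_loc_of_deriv_le
    (μ := volume.restrict (ball (0 : V d) 2))
    (F := fun (r : ℝ) (x : V d) => chh h x * bw z₀ r (zp x) * x j * nsq (G x))
    (F' := fun (r : ℝ) (x : V d) => chh h x * (- (r * lap (φ r) (zp x))) * x j * nsq (G x))
    (x₀ := s) (s := Ioo (s / 2) (2 * s)) (Ioo_mem_nhds (by linarith) (by linarith))
    (bound := fun x => (2 * s * (d * (C₁ / (s / 2) ^ (d + 2))) * 2) * nsq (G x))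
    (Eventually.of_forall fun r =>
      (hInt _ _ ((continuous_bw z₀ r).comp continuous_zp) fun x =>
        bw_bound z₀ r (zp x)).aestronglyMeasurable)
    (hInt _ _ ((continuous_bw z₀ s).comp continuous_zp) fun x => bw_bound z₀ s (zp x))
    (by
      refine (hInt (fun x => - (s * lap (φ s) (zp x))) (s * (d * (C₁ / s ^ (d + 2)))) ?_
        fun x => ?_).aestronglyMeasurable
      · exact (continuous_const.mul ((continuous_lap (hφ s hs).1).comp continuous_zp)).neg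
      · rw [abs_neg, abs_mul, abs_of_pos hs]
        exact mul_le_mul_of_nonneg_left (lap_bound ((hφ s hs).2.1 _)) hs.le)
    (by
      filter_upwards [hae] with x hx
      intro r hr
      obtain ⟨hr1, hr2⟩ := hr
      have hr0 : 0 < r := by linarith
      rw [Real.norm_eq_abs, abs_mul, abs_mul, abs_mul, abs_of_nonneg (hc1 x).1,
        abs_of_nonneg (hnn x), abs_neg, abs_mul, abs_of_pos hr0]
      have h1 : |lap (φ r) (zp x)| ≤ d * (C₁ / (s / 2) ^ (d + 2)) := by
        refine (lap_bound ((hφ r hr0).2.1 _)).trans ?_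
        gcongr
      calc chh h x * (r * |lap (φ r) (zp x)|) * |x j| * nsq (G x) ≤
          1 * (2 * s * (d * (C₁ / (s / 2) ^ (d + 2)))) * 2 * nsq (G x) := by
            have h2 := hnn x
            gcongr
            · exact (hc1 x).2
            · exact hxj x hx
        _ = _ := by ring)
    (hI.const_mul _)
    (by
      refine Eventually.of_forall fun x r hr => ?_
      have hr0 : 0 < r := by
        have := hr.1
        linarith
      exact ((((hφ r hr0).2.2 (zp x)).const_mul (chh h x)).mul_const (x j)).mul_const (nsq (G x)))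
  have h3 := hkey.2
  have h4 : (∫ x in ball (0 : V d) 2, chh h x * (- (s * lap (φ s) (zp x))) * x j * nsq (G x)) =
      - (s * ∫ x in ball (0 : V d) 2, chh h x * lap (φ s) (zp x) * x j * nsq (G x)) := by
    rw [← integral_const_mul, ← integral_neg]
    refine integral_congr_ae (Eventually.of_forall fun x => ?_)
    ring
  rw [h4] at h3
  exact h3

end Pool.Agent.H67.AN.MA2

namespace Pool.Agent.H67.AN

open MeasureTheory Metric Set Filter Topology
open Pool.Agent.H87.SN Pool.Agent.H87.SH Pool.Agent.H87.AX Pool.Agent.H22.AN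
open scoped ContDiff RealInnerProductSpace ENNReal
open MA2

theorem pf_MA2 (hCNS : T_CNS) (hCHF : T_CHF) (hBWP : T_BWP) (hMUF : T_MUF) : T_MA2 := by
  intro d
  obtain ⟨C₀, hC₀, hN⟩ := hCNS d
  obtain ⟨C₁, hC₁, hP⟩ := hBWP d
  refine ⟨2 * C₀ * C₁, by positivity, ?_⟩
  intro m G hG hSt h Z τ hh hh8 hτ hZ z₀ t t₁ j ht ht₁ hzt hzt₁ hj
  obtain ⟨-, -, -, hI, -, -⟩ := hMUF d m G hG
  have hI0 := (hI _ measurableSet_ball (subset_refl (ball (0 : V d) 2))).1
  have hnn : ∀ y : V d, 0 ≤ nsq (G y) := fun y => Finset.sum_nonneg fun i _ => by positivity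
  have hEz : 0 ≤ Ez G h Z := integral_nonneg fun x => Finset.sum_nonneg fun i _ => by positivity
  have hIn : 0 ≤ In G h Z := integral_nonneg fun x => hnn x
  have hz0 : 0 ≤ ‖z₀‖ := norm_nonneg _
  have hτ1 : τ ≤ 1 := by linarith
  have hZ0 : 0 < Z := by linarith
  have hchoice : ∀ s : ℝ, 0 < s → ∃ φ : E d → ℝ, ContDiff ℝ 3 φ ∧
      (∀ z, s ≤ ‖z - z₀‖ → φ z = 0) ∧
      (∀ z, |φ z| ≤ C₁ / s ^ d) ∧ (∀ z, ‖fderiv ℝ φ z‖ ≤ C₁ / s ^ (d + 1)) ∧
      (∀ z, ‖fderiv ℝ (fderiv ℝ φ) z‖ ≤ C₁ / s ^ (d + 2)) ∧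
      (∀ z : E d, HasDerivAt (fun r : ℝ => bw z₀ r z) (- (s * lap φ z)) s) := by
    intro s hs
    obtain ⟨-, φ, h1, h2, h3, h4, h5, -, h6, -⟩ := hP z₀ s hs
    exact ⟨φ, h1, h2, h3, h4, h5, h6⟩
  choose! φ hφ using hchoice
  have hder : ∀ s, 0 < s → HasDerivAt (fun r : ℝ => mo G h j z₀ r)
      (- (s * ∫ x in ball (0 : V d) 2, chh h x * lap (φ s) (zp x) * x j * nsq (G x))) s :=
    fun s hs => deriv_mo hCHF hI0 hC₁ z₀ φ
      (fun s hs => ⟨(hφ s hs).1, (hφ s hs).2.2.2.2.1, (hφ s hs).2.2.2.2.2⟩) h hh j s hs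
  set K := 2 * C₀ * C₁ / (τ ^ (d + 2) * h) * (Ez G h Z + In G h Z) with hK
  have hK0 : 0 ≤ K := by positivity
  -- the bound
  have hbd : ∀ s ∈ {s : ℝ | τ ≤ s ∧ ‖z₀‖ + s ≤ Z},
      ‖- (s * ∫ x in ball (0 : V d) 2, chh h x * lap (φ s) (zp x) * x j * nsq (G x))‖ ≤ K := by
    rintro s ⟨hs1, hs2⟩
    have hs0 : 0 < s := by linarith
    have hs3 : s ≤ 1 := by linarith
    obtain ⟨h1, h2, h3, h4, h5, h6⟩ := hφ s hs0
    have h7 := (hN m G hG hSt h Z hh hh8 hZ0 hZ).2 (φ s) (C₁ / s ^ d) (C₁ / s ^ (d + 1))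
      (C₁ / s ^ (d + 2)) j (h1.of_le (by norm_num)) (fun z hz => h2 z (by
        have := norm_sub_norm_le z z₀
        linarith)) h3 h4 h5 hj
    rw [norm_neg, norm_mul, Real.norm_eq_abs, Real.norm_eq_abs, abs_of_pos hs0]
    have e0 : τ ^ (d + 2) ≤ s ^ (d + 2) := pow_le_pow_left₀ hτ.le hs1 _
    have hsd : 0 < s ^ d := by positivity
    have hτd : 0 < τ ^ (d + 2) := by positivity
    have hh1 : h ≤ 1 := by linarith
    -- the three coefficients
    have a1 : s * (h * (C₁ / s ^ (d + 2))) ≤ C₁ / (τ ^ (d + 2) * h) := by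
      rw [mul_div_assoc', mul_div_assoc', div_le_div_iff₀ (by positivity) (by positivity)]
      have : s * (h * C₁) * (τ ^ (d + 2) * h) = C₁ * (s * (h * h) * τ ^ (d + 2)) := by ring
      rw [this]
      refine mul_le_mul_of_nonneg_left ?_ hC₁.le
      calc s * (h * h) * τ ^ (d + 2) ≤ 1 * (1 * 1) * s ^ (d + 2) := by gcongr
        _ = s ^ (d + 2) := by ring
    have a2 : s * (C₁ / s ^ (d + 1)) ≤ C₁ / (τ ^ (d + 2) * h) := by
      have e1 : s * (C₁ / s ^ (d + 1)) = C₁ / s ^ d := by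
        rw [pow_succ]
        field_simp
      rw [e1]
      refine div_le_div_of_nonneg_left hC₁.le (by positivity) ?_
      calc τ ^ (d + 2) * h ≤ s ^ (d + 2) * 1 := by gcongr
        _ = s ^ d * s ^ 2 := by rw [mul_one, pow_add]
        _ ≤ s ^ d * 1 := by
            refine mul_le_mul_of_nonneg_left ?_ hsd.le
            nlinarith
        _ = s ^ d := mul_one _
    have a3 : s * (C₁ / s ^ d / h) ≤ C₁ / (τ ^ (d + 2) * h) := by
      have e1 : s * (C₁ / s ^ d / h) = s * C₁ / (s ^ d * h) := by field_simp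
      rw [e1, div_le_div_iff₀ (by positivity) (by positivity)]
      have e2 : s * C₁ * (τ ^ (d + 2) * h) = C₁ * h * (s * τ ^ (d + 2)) := by ring
      have e3 : C₁ * (s ^ d * h) = C₁ * h * s ^ d := by ring
      rw [e2, e3]
      refine mul_le_mul_of_nonneg_left ?_ (by positivity)
      calc s * τ ^ (d + 2) ≤ 1 * s ^ (d + 2) := by gcongr
        _ = s ^ d * s ^ 2 := by rw [one_mul, pow_add]
        _ ≤ s ^ d * 1 := by
            refine mul_le_mul_of_nonneg_left ?_ hsd.le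
            nlinarith
        _ = s ^ d := mul_one _
    calc s * |∫ x in ball (0 : V d) 2, chh h x * lap (φ s) (zp x) * x j * nsq (G x)|
        ≤ s * (C₀ * (h * (C₁ / s ^ (d + 2)) * Ez G h Z +
          (C₁ / s ^ (d + 1) + C₁ / s ^ d / h) * In G h Z)) := by gcongr
      _ = C₀ * (s * (h * (C₁ / s ^ (d + 2))) * Ez G h Z +
          (s * (C₁ / s ^ (d + 1)) + s * (C₁ / s ^ d / h)) * In G h Z) := by ring
      _ ≤ C₀ * (C₁ / (τ ^ (d + 2) * h) * Ez G h Z +
          (C₁ / (τ ^ (d + 2) * h) + C₁ / (τ ^ (d + 2) * h)) * In G h Z) := by gcongr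
      _ ≤ K := by
          rw [hK]
          have e5 : 0 ≤ C₀ * (C₁ / (τ ^ (d + 2) * h)) * Ez G h Z := by positivity
          have e6 : 2 * C₀ * C₁ / (τ ^ (d + 2) * h) = 2 * (C₀ * (C₁ / (τ ^ (d + 2) * h))) := by ring
          rw [e6]
          nlinarith
  have hconv : Convex ℝ {s : ℝ | τ ≤ s ∧ ‖z₀‖ + s ≤ Z} := by
    have : {s : ℝ | τ ≤ s ∧ ‖z₀‖ + s ≤ Z} = Icc τ (Z - ‖z₀‖) := by
      ext s
      simp only [mem_ofPred_eq, mem_Icc]
      constructor
      · rintro ⟨h1, h2⟩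
        exact ⟨h1, by linarith⟩
      · rintro ⟨h1, h2⟩
        exact ⟨h1, by linarith⟩
    rw [this]
    exact convex_Icc _ _
  have hfin := hconv.norm_image_sub_le_of_norm_hasDerivWithin_le
    (fun s hs => (hder s (hτ.trans_le hs.1)).hasDerivWithinAt) hbd (x := t₁) (y := t)
    ⟨ht₁, hzt₁⟩ ⟨ht, hzt⟩
  rw [Real.norm_eq_abs, Real.norm_eq_abs] at hfin
  have hd : |t - t₁| ≤ 1 := by
    rw [abs_le]
    constructor <;> linarith
  calc |mo G h j z₀ t - mo G h j z₀ t₁| ≤ K * |t - t₁| := hfin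
    _ ≤ K * 1 := by gcongr
    _ = K := mul_one K

end Pool.Agent.H67.AN
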