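import Pool.Agent.H22.AN.TB3
import Pool.Agent.H80.AN.TargetsA

/-! Row QNT of `allh_modules`: quantisation of the density near the plane. -/

set_option autoImplicit false

namespace Pool.Agent.H67.AN.QNT

open MeasureTheory Metric Set Filter Topology
open Pool.Agent.H87.SN Pool.Agent.H87.SH Pool.Agent.H87.AX Pool.Agent.H22.AN
open scoped ContDiff RealInnerProductSpace ENNReal

variable {d : ℕ}

theorem rho_nn (x : V d) : 0 ≤ rho x := Real.sqrt_nonneg _

theorem rho_sq (x : V d) : rho x ^ 2 = x 0 ^ 2 + x 1 ^ 2 := by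
  unfold rho
  rw [Real.sq_sqrt (by positivity)]

theorem norm_sq_eq (x : V d) : ‖x‖ ^ 2 = rho x ^ 2 + ‖zp x‖ ^ 2 := by
  rw [rho_sq, EuclideanSpace.norm_sq_eq, EuclideanSpace.norm_sq_eq, Fin.sum_univ_succ,
    Fin.sum_univ_succ]
  simp only [Real.norm_eq_abs, sq_abs]
  rw [← add_assoc]
  rfl

theorem rho_sub (x y : V d) : rho (y - x) ≤ rho y + rho x := by
  have h1 := rho_nn x
  have h2 := rho_nn y
  have h3 := rho_sq x
  have h4 := rho_sq y
  have h5 := rho_sq (y - x)
  have h6 : (y - x) 0 = y 0 - x 0 := rfl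
  have h7 : (y - x) 1 = y 1 - x 1 := rfl
  rw [h6, h7] at h5
  apply le_of_sq_le_sq _ (by positivity)
  have h8 : -(x 0 * y 0 + x 1 * y 1) ≤ rho x * rho y := by
    apply (neg_le_abs _).trans
    apply abs_le_of_sq_le_sq _ (by positivity)
    rw [mul_pow, h3, h4]
    nlinarith [sq_nonneg (x 0 * y 1 - x 1 * y 0)]
  nlinarith

theorem zp_sub (x y : V d) : zp (y - x) = zp y - zp x := by
  ext i
  rfl

theorem continuous_rho : Continuous (fun x : V d => rho x) := by
  unfold rho
  fun_prop

theorem continuous_zp : Continuous (fun x : V d => zp x) := by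
  unfold zp
  fun_prop

/-- the thin set -/
def S (rc : ℝ) (z : E d) (w : ℝ) : Set (V d) := {y : V d | rho y < rc ∧ ‖zp y - z‖ < w}

theorem S_meas (rc : ℝ) (z : E d) (w : ℝ) : MeasurableSet (S rc z w) :=
  ((isOpen_lt continuous_rho continuous_const).inter
    (isOpen_lt (continuous_zp.sub continuous_const).norm continuous_const)).measurableSet

theorem oc_meas (rc : ℝ) : MeasurableSet {x : V d | x ∈ ball 0 1 ∧ rc ≤ rho x} :=
  measurableSet_ball.inter (isClosed_le continuous_const continuous_rho).measurableSet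

end Pool.Agent.H67.AN.QNT

namespace Pool.Agent.H67.AN

open MeasureTheory Metric Set Filter Topology
open Pool.Agent.H87.SN Pool.Agent.H87.SH Pool.Agent.H87.AX Pool.Agent.H22.AN
open scoped ContDiff RealInnerProductSpace ENNReal
open QNT

theorem pf_QNT (hTVL : T_TVL) (hMUF : T_MUF) (hBTF : T_BTF) (hBWF : T_BWF) (hCHF : T_CHF) :
    T_QNT := by
  intro d c hc
  obtain ⟨CT, hCT, hT⟩ := hTVL d
  obtain ⟨-, CB, hCB, hB⟩ := hBWF d
  obtain ⟨Cc, -, hchh⟩ := hCHF
  have hK : 0 < CB * CT * 8 ^ d := by positivity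
  refine ⟨min (1 / 8) (c / (4 * (CB * CT * 8 ^ d))), c / (4 * (CB * 8 ^ d)),
    lt_min (by norm_num) (by positivity), (min_le_left _ _).trans (by norm_num), by positivity, ?_⟩
  set κ := min (1 / 8) (c / (4 * (CB * CT * 8 ^ d))) with hκ
  have hκ0 : 0 < κ := lt_min (by norm_num) (by positivity)
  have hκ8 : κ ≤ 1 / 8 := min_le_left _ _
  have hκK : CB * CT * 8 ^ d * κ ^ 2 ≤ c / 4 := by
    have h1 : κ ≤ c / (4 * (CB * CT * 8 ^ d)) := min_le_right _ _
    have h2 : κ ^ 2 ≤ κ := by nlinarith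
    calc CB * CT * 8 ^ d * κ ^ 2 ≤ CB * CT * 8 ^ d * (c / (4 * (CB * CT * 8 ^ d))) := by
          gcongr
          exact h2.trans h1
      _ = c / 4 := by field_simp
  intro m L Λ ε er hE U u G hS h R hh hh64 hR hms hoc x t ht ht2 hx hzx
  by_contra hlt
  push Not at hlt
  have ht0 : 0 < t := by linarith
  have hκh : κ * h ≤ t / 8 := by nlinarith
  have hκh0 : 0 < κ * h := by positivity
  -- the ball
  have hx1 : ‖x‖ < 1 := by
    have h1 := norm_sq_eq x
    have h2 := rho_nn x
    have h3 : ‖zp x‖ ^ 2 ≤ 1 / 16 := by nlinarith [norm_nonneg (zp x)]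
    nlinarith [norm_nonneg x]
  have hb : ball x t ⊆ ball 0 2 := by
    apply ball_subset_ball'
    rw [dist_zero_right]
    linarith
  have hE' := hE U u G hS x t ht0 hb hlt
  have hsub : S (κ * h) (zp x) (t / 8) ⊆ ball x (t / 2) := by
    rintro y ⟨hy1, hy2⟩
    rw [mem_ball, dist_eq_norm]
    have h1 := norm_sq_eq (y - x)
    have h2 := rho_sub x y
    have h3 := rho_nn (y - x)
    rw [zp_sub] at h1
    have h5 : ‖zp y - zp x‖ ^ 2 ≤ (t / 8) ^ 2 := pow_le_pow_left₀ (norm_nonneg _) hy2.le 2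
    have h6 : rho (y - x) ^ 2 ≤ (3 / 8 * t) ^ 2 := pow_le_pow_left₀ h3 (by linarith) 2
    apply lt_of_pow_lt_pow_left₀ 2 (by positivity)
    nlinarith
  have hsub2 : S (κ * h) (zp x) (t / 8) ⊆ ball 0 2 :=
    hsub.trans ((ball_subset_ball (by linarith)).trans hb)
  have hoc2 : {x : V d | x ∈ ball 0 1 ∧ κ * h ≤ rho x} ⊆ ball 0 2 :=
    fun y hy => ball_subset_ball (by norm_num) hy.1
  obtain ⟨-, -, -, hI, -, -⟩ := hMUF d m G hS.gd.memG
  have hI0 := (hI _ measurableSet_ball (subset_refl (ball (0 : V d) 2))).1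
  -- the volume
  have hvol : volume (S (κ * h) (zp x) (t / 8)) ≤
      ENNReal.ofReal (CT * (κ * h) ^ 2 * (t / 2) ^ d) := by
    refine (measure_mono ?_).trans (hT 0 (bv 0) (bv 1) x (κ * h) (t / 2) (hBTF d).2.1 hκh0
      (by linarith))
    intro y hy
    refine ⟨hsub hy, ?_⟩
    rw [(hBTF d).2.2.1 y]
    exact pow_lt_pow_left₀ hy.1 (rho_nn y) (by norm_num)
  have hvol' : volume.real (S (κ * h) (zp x) (t / 8)) ≤ CT * (κ * h) ^ 2 * (t / 2) ^ d :=
    ENNReal.toReal_le_of_le_ofReal (by positivity) hvol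
  -- the thin part
  have h7 : ∫ y in S (κ * h) (zp x) (t / 8), nsq (G y) ≤ (t ^ 2)⁻¹ * (CT * (κ * h) ^ 2 * t ^ d) := by
    have hSU : S (κ * h) (zp x) (t / 8) ⊆ U := fun y hy => (hE' y (hsub hy)).1
    calc ∫ y in S (κ * h) (zp x) (t / 8), nsq (G y)
        ≤ ∫ y in S (κ * h) (zp x) (t / 8), (t ^ 2)⁻¹ := by
          refine setIntegral_mono_ae_restrict (hI _ (S_meas _ _ _) hsub2).1 ?_ ?_
          · exact integrableOn_const (hvol.trans_lt ENNReal.ofReal_lt_top).ne
          · filter_upwards [ae_mono (Measure.restrict_mono hSU le_rfl) hS.ae,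
              ae_restrict_mem (S_meas (κ * h) (zp x) (t / 8))] with y hy hy2
            rw [hy]
            have h8 : t ^ 2 * nsq (fderiv ℝ u y) ≤ 1 := (hE' y (hsub hy2)).2
            rw [← one_div, le_div_iff₀ (by positivity)]
            linarith
      _ = volume.real (S (κ * h) (zp x) (t / 8)) * (t ^ 2)⁻¹ := by
          rw [setIntegral_const, smul_eq_mul]
      _ ≤ (CT * (κ * h) ^ 2 * (t / 2) ^ d) * (t ^ 2)⁻¹ := by gcongr
      _ ≤ (CT * (κ * h) ^ 2 * t ^ d) * (t ^ 2)⁻¹ := by
          gcongr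
          linarith
      _ = _ := by ring
  -- the mass of the window
  have hwin := hms (zp x) (t / 8) (by linarith) (by linarith) hzx
  have ht8 : 0 < t / 8 := by linarith
  obtain ⟨-, hb1, hb2, -⟩ := hB (zp x) (t / 8) ht8
  obtain ⟨-, hc1, -, hc2, -⟩ := hchh d h hh
  set B := CB / (t / 8) ^ d with hBdef
  have hB0 : 0 ≤ B := by positivity
  have hnn : ∀ y : V d, 0 ≤ nsq (G y) := fun y => Finset.sum_nonneg fun i _ => by positivity
  have hle : ms G h (zp x) (t / 8) ≤
      B * (∫ y in S (κ * h) (zp x) (t / 8), nsq (G y)) + B * oc G (κ * h) 1 := by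
    have e1 : B * (∫ y in S (κ * h) (zp x) (t / 8), nsq (G y)) =
        ∫ y in ball (0 : V d) 2,
          (S (κ * h) (zp x) (t / 8)).indicator (fun y => B * nsq (G y)) y := by
      rw [setIntegral_indicator (S_meas _ _ _), inter_eq_self_of_subset_right hsub2,
        integral_const_mul]
    have e2 : B * oc G (κ * h) 1 = ∫ y in ball (0 : V d) 2,
        ({x : V d | x ∈ ball 0 1 ∧ κ * h ≤ rho x}).indicator (fun y => B * nsq (G y)) y := by
      rw [setIntegral_indicator (oc_meas _), inter_eq_self_of_subset_right hoc2,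
        integral_const_mul]
      rfl
    have i1 : IntegrableOn (fun y => B * nsq (G y)) (ball (0 : V d) 2) := hI0.const_mul B
    rw [e1, e2, ← integral_add (i1.indicator (S_meas _ _ _)) (i1.indicator (oc_meas _))]
    unfold ms
    refine integral_mono_of_nonneg (Eventually.of_forall fun y => ?_)
      ((i1.indicator (S_meas _ _ _)).add (i1.indicator (oc_meas _)))
      (Eventually.of_forall fun y => ?_)
    · exact mul_nonneg (mul_nonneg (hc1 y).1 (hb1 _).1) (hnn y)
    · show chh h y * bw (zp x) (t / 8) (zp y) * nsq (G y) ≤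
        (S (κ * h) (zp x) (t / 8)).indicator (fun y => B * nsq (G y)) y +
        ({x : V d | x ∈ ball 0 1 ∧ κ * h ≤ rho x}).indicator (fun y => B * nsq (G y)) y
      have hBn : 0 ≤ B * nsq (G y) := mul_nonneg hB0 (hnn y)
      have g1 : 0 ≤ (S (κ * h) (zp x) (t / 8)).indicator (fun y => B * nsq (G y)) y :=
        indicator_nonneg (fun y _ => mul_nonneg hB0 (hnn y)) y
      have g2 : 0 ≤ ({x : V d | x ∈ ball 0 1 ∧ κ * h ≤ rho x}).indicator
          (fun y => B * nsq (G y)) y :=
        indicator_nonneg (fun y _ => mul_nonneg hB0 (hnn y)) y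
      have g3 : chh h y * bw (zp x) (t / 8) (zp y) * nsq (G y) ≤ B * nsq (G y) := by
        refine mul_le_mul_of_nonneg_right ?_ (hnn y)
        calc chh h y * bw (zp x) (t / 8) (zp y) ≤ 1 * B :=
              mul_le_mul (hc1 y).2 (hb1 _).2 (hb1 _).1 zero_le_one
          _ = B := one_mul B
      by_cases hz : ‖zp y - zp x‖ < t / 8
      · by_cases hr : rho y < 2 * h
        · by_cases hk : rho y < κ * h
          · have hyS : y ∈ S (κ * h) (zp x) (t / 8) := ⟨hk, hz⟩
            rw [indicator_of_mem hyS]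
            linarith
          · have hyO : y ∈ {x : V d | x ∈ ball 0 1 ∧ κ * h ≤ rho x} := by
              refine ⟨?_, not_lt.1 hk⟩
              rw [mem_ball_zero_iff]
              have n1 := norm_sq_eq y
              have n2 := rho_nn y
              have n3 : ‖zp y‖ ≤ ‖zp x‖ + t / 8 := by
                have := norm_add_le (zp x) (zp y - zp x)
                rw [add_sub_cancel] at this
                linarith
              have n4 : ‖zp y‖ ≤ 5 / 16 := by linarith
              have n5 : ‖zp y‖ ^ 2 ≤ (5 / 16) ^ 2 := pow_le_pow_left₀ (norm_nonneg _) n4 2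
              have n6 : rho y ^ 2 ≤ (1 / 32) ^ 2 := pow_le_pow_left₀ n2 (by linarith) 2
              nlinarith [norm_nonneg y]
            rw [indicator_of_mem hyO]
            linarith
        · rw [hc2 y (not_lt.1 hr)]
          simp only [zero_mul]
          linarith
      · rw [hb2 _ (not_lt.1 hz)]
        simp only [mul_zero, zero_mul]
        linarith
  -- conclusion
  have hA : B * (∫ y in S (κ * h) (zp x) (t / 8), nsq (G y)) ≤ c / 4 := by
    calc B * (∫ y in S (κ * h) (zp x) (t / 8), nsq (G y))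
        ≤ B * ((t ^ 2)⁻¹ * (CT * (κ * h) ^ 2 * t ^ d)) := by gcongr
      _ = CB * CT * 8 ^ d * κ ^ 2 * (h / t) ^ 2 := by
          rw [hBdef, div_pow, div_pow]
          field_simp
      _ ≤ CB * CT * 8 ^ d * κ ^ 2 * 1 ^ 2 := by
          gcongr
          rwa [div_le_one ht0]
      _ ≤ c / 4 := by linarith
  have hO : B * oc G (κ * h) 1 ≤ c / 4 := by
    calc B * oc G (κ * h) 1 ≤ B * (c / (4 * (CB * 8 ^ d)) * h ^ d) := by gcongr
      _ = c / 4 * (h / t) ^ d := by
          rw [hBdef, div_pow, div_pow]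
          field_simp
      _ ≤ c / 4 * 1 ^ d := by
          gcongr
          rwa [div_le_one ht0]
      _ = c / 4 := by rw [one_pow, mul_one]
  linarith

end Pool.Agent.H67.AN
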